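import Mathlib
import Pool.Agent.LibShatter.Defs
import Pool.Agent.LibShatter.Lower
import Pool.Agent.LibShatter.Upper

/-!
Partial shattering by permutations: a fifth regime.

`shatterNumber k n t` is the least size of a family of permutations of an `n`-element set that
induces at least `t` orders on every `k`-element subset.  For `k = 6` and `t = 17` it grows
strictly faster than `√(log n)` and is `O((log n)^(2/3))`, so it is in none of the four regimes.
-/

namespace Pool.Agent.Results.MP_e58d4b_co.FifthRegime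

open Filter Asymptotics Pool.Agent.LibShatter

theorem log_le_natLog (n : ℕ) (hn : 1 ≤ n) : Real.log n ≤ (Nat.log 2 n : ℝ) + 1 := by
  have h1 : n < 2 ^ (Nat.log 2 n + 1) := Nat.lt_pow_succ_log_self (by norm_num) n
  have h2 : (n : ℝ) ≤ 2 ^ (Nat.log 2 n + 1) := by exact_mod_cast h1.le
  have h3 : Real.log n ≤ Real.log (2 ^ (Nat.log 2 n + 1)) :=
    Real.log_le_log (by exact_mod_cast hn) h2
  rw [Real.log_pow] at h3
  have h4 : Real.log 2 ≤ 1 := by
    have := Real.log_two_lt_d9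
    linarith
  have h5 : (0 : ℝ) ≤ ((Nat.log 2 n + 1 : ℕ) : ℝ) := Nat.cast_nonneg _
  calc Real.log n ≤ ((Nat.log 2 n + 1 : ℕ) : ℝ) * Real.log 2 := h3
    _ ≤ ((Nat.log 2 n + 1 : ℕ) : ℝ) * 1 := mul_le_mul_of_nonneg_left h4 h5
    _ = _ := by push_cast; ring

theorem tendsto_log_nat : Tendsto (fun n : ℕ => Real.log n) atTop atTop :=
  Real.tendsto_log_atTop.comp tendsto_natCast_atTop_atTop

theorem lower : (fun n : ℕ => Real.sqrt (Real.log n)) =o[atTop]
    fun n : ℕ => (shatterNumber 6 n 17 : ℝ) := by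
  rw [isLittleO_iff]
  intro c hc
  obtain ⟨C, hC⟩ := exists_nat_ge (2 / c ^ 2 + 1)
  have hc2 : 0 < 2 / c ^ 2 := by positivity
  have hC1 : 1 ≤ C := by
    have : (1 : ℝ) ≤ C := by linarith
    exact_mod_cast this
  obtain ⟨n₀, hn₀⟩ := lower_asym C hC1
  have hev := tendsto_log_nat.eventually_ge_atTop 2
  filter_upwards [eventually_ge_atTop (max n₀ 1), hev] with n hn hlog
  have h1 := hn₀ n (le_trans (le_max_left _ _) hn) (feasible n)
  have h2 := log_le_natLog n (le_trans (le_max_right _ _) hn)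
  have h3 : Nat.sqrt (C * Nat.log 2 n) + 1 ≤ shatterNumber 6 n 17 := h1
  have h4 : C * Nat.log 2 n < (shatterNumber 6 n 17) ^ 2 := by
    calc C * Nat.log 2 n < (Nat.sqrt (C * Nat.log 2 n) + 1) * (Nat.sqrt (C * Nat.log 2 n) + 1) :=
          Nat.lt_succ_sqrt _
      _ ≤ (shatterNumber 6 n 17) * (shatterNumber 6 n 17) := Nat.mul_le_mul h3 h3
      _ = _ := by ring
  have h5 : (C : ℝ) * (Nat.log 2 n : ℝ) < (shatterNumber 6 n 17 : ℝ) ^ 2 := by
    exact_mod_cast h4
  rw [Real.norm_of_nonneg (Real.sqrt_nonneg _), Real.norm_of_nonneg (Nat.cast_nonneg _)]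
  apply Real.sqrt_le_iff.mpr
  refine ⟨by positivity, ?_⟩
  have h6 : Real.log n ≤ 2 * (Nat.log 2 n : ℝ) := by linarith
  have h7 : 2 ≤ c ^ 2 * C := by
    have h8 : 2 / c ^ 2 ≤ C := by linarith
    have h9 : 0 < c ^ 2 := by positivity
    rw [div_le_iff₀ h9] at h8
    linarith
  have h10 : (0 : ℝ) ≤ (Nat.log 2 n : ℝ) := Nat.cast_nonneg _
  calc Real.log n ≤ 2 * (Nat.log 2 n : ℝ) := h6
    _ ≤ (c ^ 2 * C) * (Nat.log 2 n : ℝ) := mul_le_mul_of_nonneg_right h7 h10
    _ = c ^ 2 * (C * (Nat.log 2 n : ℝ)) := by ring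
    _ ≤ c ^ 2 * (shatterNumber 6 n 17 : ℝ) ^ 2 :=
        mul_le_mul_of_nonneg_left h5.le (by positivity)
    _ = (c * (shatterNumber 6 n 17 : ℝ)) ^ 2 := by ring

theorem upper : (fun n : ℕ => (shatterNumber 6 n 17 : ℝ)) =O[atTop]
    fun n : ℕ => (Real.log n) ^ ((2 : ℝ) / 3) := by
  rw [isBigO_iff]
  refine ⟨1400 * 9, ?_⟩
  have hev := tendsto_log_nat.eventually_ge_atTop 1
  filter_upwards [eventually_ge_atTop 1, hev] with n hn hlog
  have hlog0 : 0 ≤ Real.log n := by linarith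
  obtain ⟨x, hx⟩ : ∃ x, x = (Real.log n) ^ ((1 : ℝ) / 3) := ⟨_, rfl⟩
  have hx1 : 1 ≤ x := by
    rw [hx]
    exact Real.one_le_rpow hlog (by norm_num)
  have hx3 : x ^ 3 = Real.log n := by
    rw [hx, ← Real.rpow_natCast, ← Real.rpow_mul hlog0]
    norm_num
  have hx2 : x ^ 2 = (Real.log n) ^ ((2 : ℝ) / 3) := by
    rw [hx, ← Real.rpow_natCast, ← Real.rpow_mul hlog0]
    norm_num
  obtain ⟨D, hD⟩ : ∃ D, D = Nat.ceil (2 * x) := ⟨_, rfl⟩
  have hD1 : 2 * x ≤ D := by rw [hD]; exact Nat.le_ceil _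
  have hD2 : (D : ℝ) ≤ 3 * x := by
    have : (D : ℝ) < 2 * x + 1 := by
      rw [hD]
      exact Nat.ceil_lt_add_one (by linarith)
    linarith
  have hD3 : 1 ≤ D := by
    have : (1 : ℝ) ≤ D := by linarith
    exact_mod_cast this
  have hn2 : n ≤ 2 ^ (D ^ 3) := by
    have h1 : (n : ℝ) ≤ 2 ^ (D ^ 3) := by
      rw [← Real.log_le_log_iff (by exact_mod_cast hn) (by positivity), Real.log_pow]
      have h2 : (2 * x) ^ 3 ≤ (D : ℝ) ^ 3 := pow_le_pow_left₀ (by linarith) hD1 3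
      have h3 : (1 : ℝ) / 2 ≤ Real.log 2 := by
        have := Real.log_two_gt_d9
        linarith
      calc Real.log n = x ^ 3 := hx3.symm
        _ ≤ (2 * x) ^ 3 * (1 / 2) := by nlinarith [pow_pos (lt_of_lt_of_le one_pos hx1) 3]
        _ ≤ (D : ℝ) ^ 3 * Real.log 2 := mul_le_mul h2 h3 (by norm_num) (by positivity)
        _ = _ := by push_cast; ring
    exact_mod_cast h1
  have h4 := upper_bound D n hD3 hn2
  have h5 : (shatterNumber 6 n 17 : ℝ) ≤ 1400 * (D : ℝ) ^ 2 := by exact_mod_cast h4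
  rw [Real.norm_of_nonneg (Nat.cast_nonneg _), Real.norm_of_nonneg (by positivity), ← hx2]
  have h6 : (D : ℝ) ^ 2 ≤ (3 * x) ^ 2 := pow_le_pow_left₀ (Nat.cast_nonneg _) hD2 2
  nlinarith

theorem no_self {f : ℕ → ℝ} (hf : ∀ᶠ n in atTop, f n ≠ 0) (h : f =o[atTop] f) : False :=
  isLittleO_irrefl hf.frequently h

theorem rpow_little : (fun x : ℝ => x ^ ((2 : ℝ) / 3)) =o[atTop] fun x : ℝ => x := by
  rw [isLittleO_iff]
  intro c hc
  have h1 := (tendsto_rpow_atTop (by norm_num : (0 : ℝ) < 1 / 3)).eventually_ge_atTop (1 / c)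
  filter_upwards [h1, eventually_gt_atTop 0] with x hx hx0
  have h2 : 0 < x ^ ((2 : ℝ) / 3) := Real.rpow_pos_of_pos hx0 _
  have h3 : x = x ^ ((2 : ℝ) / 3) * x ^ ((1 : ℝ) / 3) := by
    rw [← Real.rpow_add hx0]
    norm_num
  rw [Real.norm_of_nonneg h2.le, Real.norm_of_nonneg hx0.le]
  have h4 : 1 ≤ c * x ^ ((1 : ℝ) / 3) := by
    rw [div_le_iff₀ hc] at hx
    linarith
  calc x ^ ((2 : ℝ) / 3) = x ^ ((2 : ℝ) / 3) * 1 := by ring
    _ ≤ x ^ ((2 : ℝ) / 3) * (c * x ^ ((1 : ℝ) / 3)) := mul_le_mul_of_nonneg_left h4 h2.le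
    _ = c * (x ^ ((2 : ℝ) / 3) * x ^ ((1 : ℝ) / 3)) := by ring
    _ = c * x := by rw [← h3]

theorem sqrt_ne : ∀ᶠ n : ℕ in atTop, Real.sqrt (Real.log n) ≠ 0 := by
  filter_upwards [tendsto_log_nat.eventually_ge_atTop 1] with n hn
  have : 0 < Real.sqrt (Real.log n) := Real.sqrt_pos.mpr (by linarith)
  exact ne_of_gt this

/-- The shatter number for `(6, 17)` grows strictly faster than `√(log n)` and is
`O((log n)^(2/3))`; hence the four regimes do not exhaust all pairs `(k, t)`. -/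
theorem result :
    ((fun n : ℕ => Real.sqrt (Real.log n)) =o[atTop] fun n : ℕ => (shatterNumber 6 n 17 : ℝ)) ∧
    ((fun n : ℕ => (shatterNumber 6 n 17 : ℝ)) =O[atTop]
      fun n : ℕ => (Real.log n) ^ ((2 : ℝ) / 3)) ∧
    ¬ ∀ k t : ℕ, 1 ≤ k → 1 ≤ t → t ≤ k.factorial →
      ((fun n : ℕ => (shatterNumber k n t : ℝ)) =Θ[atTop] fun _ => (1 : ℝ)) ∨
      ((fun n : ℕ => (shatterNumber k n t : ℝ)) =Θ[atTop]
        fun n : ℕ => Real.log (Real.log n)) ∨
      ((fun n : ℕ => (shatterNumber k n t : ℝ)) =Θ[atTop]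
        fun n : ℕ => Real.sqrt (Real.log n)) ∨
      ((fun n : ℕ => (shatterNumber k n t : ℝ)) =Θ[atTop] fun n : ℕ => Real.log n) := by
  refine ⟨lower, upper, ?_⟩
  intro hall
  rcases hall 6 17 (by norm_num) (by norm_num) (by decide) with h | h | h | h
  · -- constant
    have h1 : (fun _ : ℕ => (1 : ℝ)) =O[atTop] fun n : ℕ => Real.sqrt (Real.log n) := by
      rw [isBigO_iff]
      refine ⟨1, ?_⟩
      filter_upwards [tendsto_log_nat.eventually_ge_atTop 1] with n hn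
      rw [Real.norm_of_nonneg (Real.sqrt_nonneg _), norm_one, one_mul]
      exact Real.one_le_sqrt.mpr hn
    exact no_self sqrt_ne ((lower.trans_isBigO h.1).trans_isBigO h1)
  · -- log log
    have h1 : (fun n : ℕ => Real.log (Real.log n)) =o[atTop]
        fun n : ℕ => (Real.log n) ^ ((1 : ℝ) / 2) :=
      (isLittleO_log_rpow_atTop (by norm_num : (0 : ℝ) < 1 / 2)).comp_tendsto tendsto_log_nat
    have h2 : (fun n : ℕ => (Real.log n) ^ ((1 : ℝ) / 2)) =
        fun n : ℕ => Real.sqrt (Real.log n) := by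
      funext n
      rw [Real.sqrt_eq_rpow]
    rw [h2] at h1
    exact no_self sqrt_ne ((lower.trans_isBigO h.1).trans_isBigO h1.isBigO)
  · -- sqrt log
    exact no_self sqrt_ne (lower.trans_isBigO h.1)
  · -- log
    have h1 : (fun n : ℕ => (Real.log n) ^ ((2 : ℝ) / 3)) =o[atTop]
        fun n : ℕ => Real.log n := rpow_little.comp_tendsto tendsto_log_nat
    have h3 : (fun n : ℕ => Real.log (n : ℝ)) =o[atTop] fun n : ℕ => Real.log (n : ℝ) :=
      (h.2.trans upper).trans_isLittleO h1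
    refine no_self ?_ h3
    filter_upwards [tendsto_log_nat.eventually_ge_atTop 1] with n hn
    have : 0 < Real.log (n : ℝ) := by linarith
    exact ne_of_gt this

end Pool.Agent.Results.MP_e58d4b_co.FifthRegime
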